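import Mathlib
import Pool.Agent.H302R10.Weak

/-!
# Multiplicities of linear characters for groups with a chain of abelian and nonabelian layers

`Pool.Agent.H302R3.IsSolHeilbronn θ` says that `θ` is a class function on a group whose
restriction to every SOLVABLE subgroup `H` has a nonnegative integer multiplicity against every
linear character of `H`.

`Pool.Agent.H302R10.AllowedSol r T` says that `T` is isomorphic to an alternating group `A_n` with
`r < (2^k - 1) * ⌊n / 2^k⌋` for some `k ≥ 2`, or that `T` is a nonabelian simple group whose outer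
automorphism group is a `p`-group for some prime `p`, and such that every function as above on `T`
of degree at most `r` is constant.

Let `G` be a finite group with a chain of normal subgroups `1 = N 0 ≤ N 1 ≤ … ≤ N l = G` in which
every factor `N (j+1) / N j` is abelian or a product of allowed groups, and let `θ` be a function
as above on `G` with `θ 1 = r`.  Then every linear character of `G` has a nonnegative integer
multiplicity in `θ`.
-/

set_option autoImplicit false

universe u

theorem Pool.Agent.Results.MP_7ed9c3_nt.PotentialChain.result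
    (G : Type u) [Group G] [Finite G] (θ : G → ℂ)
    (hθ : Pool.Agent.H302R3.IsSolHeilbronn θ) (r : ℕ)
    (hr : θ 1 = r) (l : ℕ) (N : ℕ → Subgroup G) (h0 : N 0 = ⊥) (hl : N l = ⊤)
    (hnorm : ∀ j ≤ l, (N j).Normal) (hle : ∀ j < l, N j ≤ N (j + 1))
    (hlayer : ∀ j < l, (∀ a ∈ N (j + 1), ∀ b ∈ N (j + 1), a * b * a⁻¹ * b⁻¹ ∈ N j) ∨
      ∃ (m : ℕ) (T : Fin m → Type u) (_ : ∀ i, Group (T i)) (f : N (j + 1) →* (∀ i : Fin m, T i)),
        (∀ i, Pool.Agent.H302R10.AllowedSol r (T i)) ∧ Function.Surjective f ∧
        f.ker = (N j).subgroupOf (N (j + 1)))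
    (χ : G →* ℂˣ) :
    ∃ m : ℕ, ∑ᶠ g : G, θ g * (((χ g)⁻¹ : ℂˣ) : ℂ) = (m : ℂ) * (Nat.card G : ℂ) :=
  Pool.Agent.H302R10.weak_main θ hθ r hr l N h0 hl hnorm hle hlayer χ
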