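import Mathlib
import Pool.Agent.H302R3.WeakTwo

/-!
# Multiplicities on non-solvable subgroups of class functions of degree at most two

`Pool.Agent.H302R3.IsSolHeilbronn θ` says that `θ` is a class function on a group whose
restriction to every SOLVABLE subgroup `H` has a nonnegative integer multiplicity against every
linear character of `H`.

If such a function has degree at most two, then its restriction to EVERY subgroup has a
nonnegative integer multiplicity against every linear character.
-/

set_option autoImplicit false

universe u

theorem Pool.Agent.Results.MP_7ed9c3_nt.PotentialOrderTwo.result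
    (G : Type u) [Group G] [Finite G] (θ : G → ℂ)
    (hθ : Pool.Agent.H302R3.IsSolHeilbronn θ) (h2 : (θ 1).re ≤ 2)
    (H : Subgroup G) (χ : H →* ℂˣ) :
    ∃ n : ℕ, ∑ᶠ h : H, θ h * (((χ h)⁻¹ : ℂˣ) : ℂ) = (n : ℂ) * (Nat.card H : ℂ) :=
  (hθ.isHeilbronn h2).mult H χ
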