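import Mathlib
import Pool.Agent.H302R4.PGLMain

/-!
# Multiplicities of linear characters for groups over products of `PGL(2,F)`

`Pool.Agent.H302R3.IsSolHeilbronn θ` says that `θ` is a class function on a group whose
restriction to every SOLVABLE subgroup `H` has a nonnegative integer multiplicity against every
linear character of `H`.

Let `G` be a finite group with homomorphisms `f i` to `PGL(2, F i)`, whose common kernel is
solvable and whose joint image contains the product of subgroups `X i`.  If
`θ(1) q_i (q_i + 1) < 2 |X i|` for all `i`, then every linear character of `G` has a nonnegative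
integer multiplicity in `θ`.
-/

set_option autoImplicit false

open Matrix MatrixGroups

universe u v w

theorem Pool.Agent.Results.MP_7ed9c3_nt.PotentialTorsionFields.result
    {ι : Type w} [Finite ι] (F : ι → Type u) [∀ i, Field (F i)] [∀ i, Finite (F i)]
    (X : ∀ i, Subgroup PGL(2, F i)) (G : Type v) [Group G] [Finite G]
    (f : ∀ i, G →* PGL(2, F i)) (hker : Group.IsSolvable (⨅ i, (f i).ker : Subgroup G))
    (hX : ∀ x : ∀ i, PGL(2, F i), (∀ i, x i ∈ X i) → ∃ g, ∀ i, f i g = x i)
    (θ : G → ℂ) (hθ : Pool.Agent.H302R3.IsSolHeilbronn θ) (r : ℕ) (hr : θ 1 = r)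
    (hlt : ∀ i, r * (Nat.card (F i) * (Nat.card (F i) + 1)) < 2 * Nat.card (X i))
    (χ : G →* ℂˣ) :
    ∃ n : ℕ, ∑ᶠ g : G, θ g * (((χ g)⁻¹ : ℂˣ) : ℂ) = (n : ℂ) * (Nat.card G : ℂ) :=
  Pool.Agent.H302R4.pgl_main F X f hker hX hθ hr hlt χ
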