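import Pool.Agent.H341R2.NF.TwistOrders

/-!
# Zeros and poles at the edge of the L-series of the quadratic twists of an elliptic curve over an
arbitrary number field

`K` is any number field and `E` any elliptic curve over `K`.  Consider the quadratic twists `E_d` of
`E` and any local meromorphic continuations of their `L`-series to points `3/2 + iτ` of the edge of
absolute convergence.  All these continuations have a finite order (zero or pole) there, and over all
twists and all heights together the sum of the squares of the orders is at most `4`.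
-/

set_option autoImplicit false
open NumberField
open Classical

namespace Pool.Agent.Results.MP_7ed9c3_nt.TwistOrders

open IsDedekindDomain Filter Topology

/-- The quadratic twist `y² = x³ - 27 d² c₄(E) x - 54 d³ c₆(E)` of `E` by `d`. -/
noncomputable def twist {K : Type} [Field K] (E : WeierstrassCurve K) (d : K) :
    WeierstrassCurve K where
  a₁ := 0
  a₂ := 0
  a₃ := 0
  a₄ := -27 * d ^ 2 * E.c₄
  a₆ := -54 * d ^ 3 * E.c₆

/-- `M v` is, for every `v`, an integral model of `E` with discriminant minimal at `v`. -/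
def MinimalModels {K : Type} [Field K] [NumberField K] (E : WeierstrassCurve K)
    (M : HeightOneSpectrum (𝓞 K) → WeierstrassCurve (𝓞 K)) : Prop :=
  ∀ v : HeightOneSpectrum (𝓞 K),
    (∃ C : WeierstrassCurve.VariableChange K, C • E = (M v).map (algebraMap (𝓞 K) K)) ∧
    ∀ W : WeierstrassCurve (𝓞 K),
      (∃ C : WeierstrassCurve.VariableChange K, C • E = W.map (algebraMap (𝓞 K) K)) →
        ∀ n : ℕ, (M v).Δ ∈ v.asIdeal ^ n → W.Δ ∈ v.asIdeal ^ n

/-- The Euler product of the problem, computed from the reductions of the models `M v`. -/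
noncomputable def LSeries {K : Type} [Field K] [NumberField K]
    (M : HeightOneSpectrum (𝓞 K) → WeierstrassCurve (𝓞 K)) (s : ℂ) : ℂ :=
  ∏' v : HeightOneSpectrum (𝓞 K),
    (1 - ((((Ideal.absNorm v.asIdeal : ℕ) : ℤ) -
          ((Nat.card {p : (𝓞 K ⧸ v.asIdeal) × (𝓞 K ⧸ v.asIdeal) //
            p.2 ^ 2 + Ideal.Quotient.mk v.asIdeal (M v).a₁ * p.1 * p.2
              + Ideal.Quotient.mk v.asIdeal (M v).a₃ * p.2
            = p.1 ^ 3 + Ideal.Quotient.mk v.asIdeal (M v).a₂ * p.1 ^ 2
              + Ideal.Quotient.mk v.asIdeal (M v).a₄ * p.1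
              + Ideal.Quotient.mk v.asIdeal (M v).a₆} : ℕ) : ℤ) : ℤ) : ℂ)
          * ((Ideal.absNorm v.asIdeal : ℕ) : ℂ) ^ (-s)
      + (if (M v).Δ ∈ v.asIdeal then (0 : ℂ) else 1)
          * ((Ideal.absNorm v.asIdeal : ℕ) : ℂ) ^ (1 - 2 * s))⁻¹

/-- **Orders at the edge of the quadratic twists.**  Let `E` be an elliptic curve over a number
field `K` and `(d k, τ k)`, `k ∈ T`, finitely many pairs with `d k ≠ 0` in `𝓞 K`, pairwise different
as pairs (twist up to isomorphism, height): if `d k * d l` is a square in `K` then `τ k ≠ τ l`.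
Suppose that `Λ k` is meromorphic at `3/2 + iτ_k` and agrees near this point, to the right of the
line `Re s = 3/2`, with the `L`-series of the twist of `E` by `d k`.  Then all orders are finite and
the sum of their squares is at most `4`. -/
theorem result (K : Type) [Field K] [NumberField K] (E : WeierstrassCurve K) (hE : E.IsElliptic)
    {κ : Type} (T : Finset κ) (d : κ → 𝓞 K) (τ : κ → ℝ) (hd : ∀ k ∈ T, d k ≠ 0)
    (hsep : ∀ k ∈ T, ∀ l ∈ T, k ≠ l → IsSquare ((d k * d l : 𝓞 K) : K) → τ k ≠ τ l)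
    (M : κ → HeightOneSpectrum (𝓞 K) → WeierstrassCurve (𝓞 K))
    (hM : ∀ k ∈ T, MinimalModels (twist E (d k)) (M k)) (Λ : κ → ℂ → ℂ)
    (hΛ : ∀ k ∈ T, MeromorphicAt (Λ k) (3 / 2 + τ k * Complex.I))
    (hΛL : ∀ k ∈ T, ∀ᶠ s : ℂ in 𝓝 (3 / 2 + τ k * Complex.I), (3 / 2 : ℝ) < s.re →
      Λ k s = LSeries (M k) s) :
    ∃ m : κ → ℤ, (∀ k ∈ T, meromorphicOrderAt (Λ k) (3 / 2 + τ k * Complex.I) = m k) ∧
      ∑ k ∈ T, (m k) ^ 2 ≤ 4 := by
  refine H341R2.EC.twist_orders E hE T d τ hd hsep M hM Λ hΛ ?_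
  intro k hk
  have h1 := (H341R2.path_tendsto' (3 / 2 + τ k * Complex.I)).eventually (hΛL k hk)
  filter_upwards [h1, self_mem_nhdsWithin] with ε h2 h3
  have hε : (0 : ℝ) < ε := h3
  rw [h2 (by simp; linarith)]
  rfl

end Pool.Agent.Results.MP_7ed9c3_nt.TwistOrders
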